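import Mathlib
import Pool.Agent.R180.Geo
import Pool.Agent.R180.MW.CertN
import Pool.Agent.R180.MW.CertR

set_option autoImplicit false

/-!
# No completion of the Mani-Walkup complex is polytopal

The definitions `IsSimplicialSphere`, `IsSimplicialPolytope` and `boundary` are in
`Pool.Agent.H523R3.TransDefs`. The proof: general position, orientation determinants, and a
propositional refutation from three-term Grassmann-Plücker relations, checked by the kernel.
-/

namespace Pool.Agent.Results.MP_952ea4_co.NoPolytopalCompletion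

open Pool.Agent.H523R3.Trans Pool.Agent.R180.Cert Pool.Agent.R180.MW

/-- The vertex `a`; the twelve vertices `a, b, c, d, m, n, o, p, q, r, s, t` are numbered in this
order by the elements of `Fin 12`. -/
abbrev va : Fin 12 := 0
/-- The vertex `b`. -/
abbrev vb : Fin 12 := 1
/-- The vertex `c`. -/
abbrev vc : Fin 12 := 2
/-- The vertex `d`. -/
abbrev vd : Fin 12 := 3
/-- The vertex `m`. -/
abbrev vm : Fin 12 := 4
/-- The vertex `n`. -/
abbrev vn : Fin 12 := 5
/-- The vertex `o`. -/
abbrev vo : Fin 12 := 6
/-- The vertex `p`. -/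
abbrev vp : Fin 12 := 7
/-- The vertex `q`. -/
abbrev vq : Fin 12 := 8
/-- The vertex `r`. -/
abbrev vr : Fin 12 := 9
/-- The vertex `s`. -/
abbrev vs : Fin 12 := 10
/-- The vertex `t`. -/
abbrev vt : Fin 12 := 11

/-- The 26 tetrahedra of the complex `K`. For `x = n` this is the complex of Mani and Walkup, with
the tetrahedra `dmnq` and `dmns`; for `x = r` it is the list printed in the problem file, with
`dmrq` and `dmrs` in their place. -/
def tetrahedra (x : Fin 12) : List (List (Fin 12)) :=
  [[va, vb, vc, vd], [va, vb, vc, vr], [va, vc, vd, vr], [va, vb, vd, vt], [vb, vc, vd, vt],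
   [va, vb, vm, vr], [vb, vc, vn, vr], [vc, vd, vo, vr], [vd, va, vp, vr],
   [va, vb, vm, vt], [vb, vc, vn, vt], [vc, vd, vo, vt], [vd, va, vp, vt],
   [vm, vn, vo, vp], [vm, vn, vo, vq], [vm, vo, vp, vq], [vn, vo, vp, vs], [vm, vn, vp, vs],
   [va, vn, vo, vq], [vb, vo, vp, vq], [vc, vp, vm, vq], [vd, vm, x, vq],
   [va, vn, vo, vs], [vb, vo, vp, vs], [vc, vp, vm, vs], [vd, vm, x, vs]]

/-- `T` is a completion of `K`: a triangulation of the 3-sphere which contains `K` as a
subcomplex (up to the injective labelling `φ` of the vertices of `K` by vertices of `T`). -/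
def IsCompletion (x : Fin 12) {n : ℕ} (T : Set (Finset (Fin n))) : Prop :=
  IsSimplicialSphere 4 T ∧ ∃ φ : Fin 12 → Fin n, Function.Injective φ ∧
    ∀ F ∈ tetrahedra x, (F.map φ).toFinset ∈ T

/-- `T` is polytopal: isomorphic to the boundary complex of a simplicial 4-polytope. -/
def IsPolytopal {n : ℕ} (T : Set (Finset (Fin n))) : Prop :=
  ∃ (k : ℕ) (p : Fin k → E 4) (e : Fin n ≃ Fin k), IsSimplicialPolytope 4 p ∧
    ∀ s : Finset (Fin n), s ∈ T ↔ s.image e ∈ boundary p

/-- extension of a labelling to all natural numbers -/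
def ext {k : ℕ} (ψ : Fin 12 → Fin k) (i : ℕ) : Fin k :=
  if h : i < 12 then ψ ⟨i, h⟩ else ψ 0

lemma ext_inj {k : ℕ} {ψ : Fin 12 → Fin k} (hψ : Function.Injective ψ) :
    ∀ i < 12, ∀ j < 12, ext ψ i = ext ψ j → i = j := by
  intro i hi j hj h
  simp only [ext, hi, hj, dif_pos] at h
  exact congrArg Fin.val (hψ h)

lemma facets_mem {x : Fin 12} {k : ℕ} {S : Set (Finset (Fin k))} {ψ : Fin 12 → Fin k}
    (h : ∀ F ∈ tetrahedra x, (F.map ψ).toFinset ∈ S) (facets : List (List ℕ))
    (hf : ∀ F' ∈ facets, ∃ F ∈ tetrahedra x, (F.map Fin.val).toFinset = F'.toFinset) :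
    ∀ F' ∈ facets, (F'.map (ext ψ)).toFinset ∈ S := by
  classical
  intro F' hF'
  obtain ⟨F, hF, he⟩ := hf F' hF'
  have h1 := h F hF
  have h2 : (F'.map (ext ψ)).toFinset = (F.map ψ).toFinset := by
    have e1 : (F'.map (ext ψ)).toFinset = F'.toFinset.image (ext ψ) := by
      ext z; simp
    have e2 : (F.map ψ).toFinset = (F.map Fin.val).toFinset.image (ext ψ) := by
      ext z
      simp only [List.mem_toFinset, List.mem_map, Finset.mem_image, exists_exists_and_eq_and]
      constructor
      · rintro ⟨a, ha, rfl⟩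
        exact ⟨a, ha, by simp [ext]⟩
      · rintro ⟨a, ha, rfl⟩
        exact ⟨a, ha, by simp [ext]⟩
    rw [e1, e2, he]
  rw [h2]
  exact h1

lemma matchN : ∀ F' ∈ CertN.facets, ∃ F ∈ tetrahedra vn,
    (F.map Fin.val).toFinset = F'.toFinset := by decide +kernel

lemma matchR : ∀ F' ∈ CertR.facets, ∃ F ∈ tetrahedra vr,
    (F.map Fin.val).toFinset = F'.toFinset := by decide +kernel

/-- No triangulation of the 3-sphere which contains the Mani-Walkup complex `K` as a subcomplex is
polytopal. The statement is proved for the complex of Mani and Walkup (`x = n`) and for the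
variant printed in the problem file (`x = r`). -/
theorem result : ∀ x : Fin 12, (x = vn ∨ x = vr) → ∀ (n : ℕ) (T : Set (Finset (Fin n))),
    IsCompletion x T → ¬ IsPolytopal T := by
  rintro x hx n T ⟨-, φ, hφ, hT⟩ ⟨k, p, e, hp, he⟩
  have hinj : Function.Injective (fun i => e (φ i)) := e.injective.comp hφ
  have hmem : ∀ F ∈ tetrahedra x, (F.map fun i => e (φ i)).toFinset ∈ boundary p := by
    intro F hF
    have h1 := (he _).1 (hT F hF)
    have h2 : (F.map φ).toFinset.image e = (F.map fun i => e (φ i)).toFinset := by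
      ext z; simp
    rwa [h2] at h1
  rcases hx with rfl | rfl
  · exact Pool.Agent.R180.Geo.no_polytope (N := 12) p hp (ext fun i => e (φ i)) (ext_inj hinj)
      CertN.facets (facets_mem hmem _ matchN) 4 (by decide +kernel) (by decide) CertN.gens
      CertN.gens_ok CertN.cls CertN.cls_ok CertN.steps CertN.steps_ok
  · exact Pool.Agent.R180.Geo.no_polytope (N := 12) p hp (ext fun i => e (φ i)) (ext_inj hinj)
      CertR.facets (facets_mem hmem _ matchR) 4 (by decide +kernel) (by decide) CertR.gens
      CertR.gens_ok CertR.cls CertR.cls_ok CertR.steps CertR.steps_ok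

end Pool.Agent.Results.MP_952ea4_co.NoPolytopalCompletion
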